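import Pool.Agent.Helper88.Ric.Stmts

set_option autoImplicit false

open scoped ContDiff Manifold Topology MatrixGroups LinearAlgebra.Projectivization
open Complex

noncomputable section

namespace RicP

/-- `f` is a holomorphic lift of `φ` near `z₀` -/
def DIV_Lift {n : ℕ} (φ : ℂ → ℙ ℂ (Fin (n + 1) → ℂ)) (f : ℂ → (Fin (n + 1) → ℂ)) (z₀ : ℂ) :
    Prop :=
  ∀ᶠ z in 𝓝 z₀, DifferentiableAt ℂ f z ∧ ∃ h : f z ≠ 0, φ z = Projectivization.mk ℂ (f z) h

lemma DIV_Lift.an {n : ℕ} {φ : ℂ → ℙ ℂ (Fin (n + 1) → ℂ)} {f : ℂ → (Fin (n + 1) → ℂ)} {z₀ : ℂ}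
    (h : DIV_Lift φ f z₀) : AnalyticAt ℂ f z₀ :=
  analyticAt_iff_eventually_differentiableAt.2 (h.mono fun _ hz => hz.1)

lemma DIV_Lift.anj {n : ℕ} {φ : ℂ → ℙ ℂ (Fin (n + 1) → ℂ)} {f : ℂ → (Fin (n + 1) → ℂ)} {z₀ : ℂ}
    (h : DIV_Lift φ f z₀) (j : Fin (n + 1)) : AnalyticAt ℂ (fun z => f z j) z₀ :=
  analyticAt_iff_eventually_differentiableAt.2 (h.mono fun _ hz =>
    (differentiableAt_pi.1 hz.1) j)

lemma DIV_Lift.anl {n : ℕ} {φ : ℂ → ℙ ℂ (Fin (n + 1) → ℂ)} {f : ℂ → (Fin (n + 1) → ℂ)} {z₀ : ℂ}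
    (h : DIV_Lift φ f z₀) (l : (Fin (n + 1) → ℂ) →ₗ[ℂ] ℂ) :
    AnalyticAt ℂ (fun z => l (f z)) z₀ := by
  refine analyticAt_iff_eventually_differentiableAt.2 (h.mono fun z hz => ?_)
  exact (LinearMap.toContinuousLinearMap l).differentiableAt.comp z hz.1

lemma DIV_order {n : ℕ} {φ : ℂ → ℙ ℂ (Fin (n + 1) → ℂ)} {f f' : ℂ → (Fin (n + 1) → ℂ)} {z₀ : ℂ}
    (h : DIV_Lift φ f z₀) (h' : DIV_Lift φ f' z₀) (l : (Fin (n + 1) → ℂ) →ₗ[ℂ] ℂ) :
    analyticOrderAt (fun z => l (f z)) z₀ = analyticOrderAt (fun z => l (f' z)) z₀ := by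
  obtain ⟨hne, -⟩ := h.self_of_nhds.2
  obtain ⟨j, hj⟩ : ∃ j, f z₀ j ≠ 0 := by
    by_contra hc
    push Not at hc
    exact hne (funext hc)
  have key : ∀ᶠ z in 𝓝 z₀, ∃ a : ℂ, a ≠ 0 ∧ f z = a • f' z := by
    filter_upwards [h, h'] with z hz hz'
    obtain ⟨h1, e1⟩ := hz.2
    obtain ⟨h2, e2⟩ := hz'.2
    obtain ⟨a, ha⟩ := (Projectivization.mk_eq_mk_iff' ℂ _ _ h1 h2).1 (e1.symm.trans e2)
    refine ⟨a, ?_, ha.symm⟩
    rintro rfl
    rw [zero_smul] at ha
    exact h1 ha.symm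
  have hj' : f' z₀ j ≠ 0 := by
    obtain ⟨a, ha, e⟩ := key.self_of_nhds
    intro h0
    apply hj
    rw [e]
    simp [h0]
  have hu : AnalyticAt ℂ (fun z => f z j / f' z j) z₀ := (h.anj j).div (h'.anj j) hj'
  have hu0 : f z₀ j / f' z₀ j ≠ 0 := div_ne_zero hj hj'
  have hev : (fun z => l (f z)) =ᶠ[𝓝 z₀] ((fun z => f z j / f' z j) * fun z => l (f' z)) := by
    have hne' : ∀ᶠ z in 𝓝 z₀, f' z j ≠ 0 := (h'.anj j).continuousAt.eventually_ne hj'
    filter_upwards [key, hne'] with z hz hz'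
    obtain ⟨a, ha, e⟩ := hz
    have : f z j / f' z j = a := by
      rw [e]
      simp only [Pi.smul_apply, smul_eq_mul]
      field_simp
    simp only [Pi.mul_apply]
    rw [this, e, map_smul, smul_eq_mul]
  rw [analyticOrderAt_congr hev, analyticOrderAt_mul hu (h'.anl l),
    hu.analyticOrderAt_eq_zero.2 hu0, zero_add]

open Classical in
/-- order of vanishing of `l` along `φ` at `z₀` -/
def DIV_ord {n : ℕ} (l : (Fin (n + 1) → ℂ) →ₗ[ℂ] ℂ) (φ : ℂ → ℙ ℂ (Fin (n + 1) → ℂ)) (z₀ : ℂ) :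
    ℕ∞ :=
  if h : ∃ f, DIV_Lift φ f z₀ then analyticOrderAt (fun z => l (h.choose z)) z₀ else 0

lemma DIV_ord_eq {n : ℕ} (l : (Fin (n + 1) → ℂ) →ₗ[ℂ] ℂ) {φ : ℂ → ℙ ℂ (Fin (n + 1) → ℂ)} {z₀ : ℂ}
    {f : ℂ → (Fin (n + 1) → ℂ)} (h : DIV_Lift φ f z₀) :
    DIV_ord l φ z₀ = analyticOrderAt (fun z => l (f z)) z₀ := by
  have h' : ∃ f, DIV_Lift φ f z₀ := ⟨f, h⟩
  unfold DIV_ord
  rw [dif_pos h']
  exact DIV_order h'.choose_spec h l

lemma DIV_ord_comp {n : ℕ} (l : (Fin (n + 1) → ℂ) →ₗ[ℂ] ℂ) {φ φ' : ℂ → ℙ ℂ (Fin (n + 1) → ℂ)}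
    {z₀ : ℂ} {f : ℂ → (Fin (n + 1) → ℂ)} {g : ℂ → ℂ} (h : DIV_Lift φ f (g z₀))
    (hg : AnalyticAt ℂ g z₀) (hg' : deriv g z₀ ≠ 0) (e : ∀ᶠ z in 𝓝 z₀, φ' z = φ (g z)) :
    DIV_ord l φ' z₀ = DIV_ord l φ (g z₀) := by
  have hl : DIV_Lift φ' (fun z => f (g z)) z₀ := by
    have h1 := hg.continuousAt.eventually h
    have h2 := analyticAt_iff_eventually_differentiableAt.1 hg
    filter_upwards [h1, h2, e] with z a b c
    refine ⟨DifferentiableAt.comp z a.1 b, ?_⟩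
    obtain ⟨h0, h3⟩ := a.2
    exact ⟨h0, c.trans h3⟩
  rw [DIV_ord_eq l hl, DIV_ord_eq l h]
  exact analyticOrderAt_comp_of_deriv_ne_zero (f := fun z => l (f z)) hg hg'

/-- restriction of a local lift to a curve -/
lemma DIV_restr {n : ℕ} {f : E → ℙ ℂ (Fin (n + 1) → ℂ)} {F : E → (Fin (n + 1) → ℂ)} {V : Set E}
    (hV : IsOpen V) (hF : DifferentiableOn ℂ F V)
    (h : ∀ y ∈ V, ∃ h : F y ≠ 0, f y = Projectivization.mk ℂ (F y) h) {c : ℂ → E} {z₀ : ℂ}
    (hc : ∀ᶠ z in 𝓝 z₀, DifferentiableAt ℂ c z) (h0 : c z₀ ∈ V) :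
    DIV_Lift (fun z => f (c z)) (fun z => F (c z)) z₀ := by
  have h1 : ∀ᶠ z in 𝓝 z₀, c z ∈ V :=
    hc.self_of_nhds.continuousAt.eventually (hV.mem_nhds h0)
  filter_upwards [hc, h1] with z a b
  exact ⟨DifferentiableAt.comp z (hF.differentiableAt (hV.mem_nhds b)) a, h _ b⟩

lemma DIV_zero_iff {n : ℕ} (l : (Fin (n + 1) → ℂ) →ₗ[ℂ] ℂ) (v : Fin (n + 1) → ℂ) (h : v ≠ 0) :
    l (Projectivization.mk ℂ v h).rep = 0 ↔ l v = 0 := by
  obtain ⟨a, ha⟩ := Projectivization.exists_smul_eq_mk_rep ℂ v h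
  rw [← ha, Units.smul_def, map_smul, smul_eq_mul]
  simp

/-- identity theorem -/
lemma DIV_dich {n : ℕ} (l : (Fin (n + 1) → ℂ) →ₗ[ℂ] ℂ) {φ : ℂ → ℙ ℂ (Fin (n + 1) → ℂ)}
    {W : Set ℂ} (hW : IsPreconnected W) (hφ : ∀ z ∈ W, ∃ f, DIV_Lift φ f z) {z₁ : ℂ}
    (hz₁ : z₁ ∈ W) (h₁ : l (φ z₁).rep ≠ 0) :
    ∀ z ∈ W, ∀ f, DIV_Lift φ f z → analyticOrderAt (fun z => l (f z)) z ≠ ⊤ := by
  have hev : ∀ z f, DIV_Lift φ f z → ∀ᶠ w in 𝓝 z, (l (φ w).rep = 0 ↔ l (f w) = 0) := by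
    intro z f hf
    filter_upwards [hf] with w hw
    obtain ⟨h0, h2⟩ := hw.2
    rw [h2]
    exact DIV_zero_iff l _ h0
  intro z hz f hf htop
  set S : Set ℂ := {z | ∀ᶠ w in 𝓝 z, l (φ w).rep = 0} with hS
  have hSo : IsOpen S := isOpen_iff_eventually.2 fun x hx => eventually_eventually_nhds.2 hx
  have hzS : z ∈ S := by
    rw [analyticOrderAt_eq_top] at htop
    filter_upwards [htop, hev z f hf] with w a b
    exact b.2 a
  have hsub : W ⊆ S := by
    refine hW.subset_of_closure_inter_subset hSo ⟨z, hz, hzS⟩ ?_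
    rintro x ⟨hx, hxW⟩
    obtain ⟨g, hg⟩ := hφ x hxW
    rcases (hg.anl l).eventually_eq_zero_or_eventually_ne_zero with h | h
    · filter_upwards [h, hev x g hg] with w a b
      exact b.2 a
    · by_contra hxS
      rw [mem_closure_iff_frequently] at hx
      have h3 : ∀ᶠ w in 𝓝 x, w ≠ x → l (φ w).rep ≠ 0 := by
        rw [eventually_nhdsWithin_iff] at h
        filter_upwards [h, hev x g hg] with w a b hne
        intro h0
        exact a hne (b.1 h0)
      obtain ⟨w, hw1, hw2⟩ := (hx.and_eventually h3).exists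
      have hw1' : ∀ᶠ v in 𝓝 w, l (φ v).rep = 0 := hw1
      rcases eq_or_ne w x with rfl | hne
      · exact hxS hw1
      · exact hw2 hne hw1'.self_of_nhds
  have hz₁' : ∀ᶠ v in 𝓝 z₁, l (φ v).rep = 0 := hsub hz₁
  exact h₁ hz₁'.self_of_nhds

section

variable {M : ModData} {N : ℕ} {t : ℝ}

/-- the multiplicity function -/
def DIV_mu (D : ExtData M N t) (l : (Fin (D.n + 1) → ℂ) →ₗ[ℂ] ℂ) (q : QN M N) (x : E) : ℕ :=
  (DIV_ord l (fun z => D.fH q (x.1, z)) x.2).toNat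

lemma DIV_vert (τ z : ℂ) : DifferentiableAt ℂ (fun z : ℂ => ((τ, z) : E)) z :=
  (differentiableAt_const _).prodMk differentiableAt_id

lemma DIV_liftH (D : ExtData M N t) (q : QN M N) (x : E) (hx : 0 < x.1.im) :
    ∃ f, DIV_Lift (fun z => D.fH q (x.1, z)) f x.2 := by
  obtain ⟨V, hV, hxV, F, hF, h⟩ := D.liftH q x hx
  exact ⟨_, DIV_restr hV hF h (c := fun z => (x.1, z)) (Filter.Eventually.of_forall
    fun z => DIV_vert _ _) hxV⟩

lemma DIV_fib (D : ExtData M N t) (l : (Fin (D.n + 1) → ℂ) →ₗ[ℂ] ℂ)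
    (h1 : ∀ (q : QN M N) (τ : ℂ), 0 < τ.im → ∃ z : ℂ, l (D.fH q (τ, z)).rep ≠ 0)
    (q : QN M N) : FibDiv (DIV_mu D l q) {x : E | 0 < x.1.im} := by
  intro x hx
  obtain ⟨V, hV, hxV, F, hF, h⟩ := D.liftH q x hx
  have hUo : IsOpen {x : E | 0 < x.1.im} :=
    isOpen_lt continuous_const (Complex.continuous_im.comp continuous_fst)
  refine ⟨V ∩ {x : E | 0 < x.1.im}, hV.inter hUo, ⟨hxV, hx⟩, fun y => l (F y), ?_, ?_⟩
  · intro y hy
    exact ((LinearMap.toContinuousLinearMap l).differentiableAt.comp y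
      (hF.differentiableAt (hV.mem_nhds hy.1))).differentiableWithinAt
  · rintro y ⟨hyV, hy⟩
    have hl : DIV_Lift (fun z => D.fH q (y.1, z)) (fun z => F (y.1, z)) y.2 :=
      DIV_restr hV hF h (c := fun z => (y.1, z)) (Filter.Eventually.of_forall
        fun z => DIV_vert _ _) hyV
    obtain ⟨z₁, hz₁⟩ := h1 q y.1 hy
    refine ⟨?_, ?_⟩
    · exact DIV_dich l (φ := fun z => D.fH q (y.1, z)) isPreconnected_univ
        (fun z _ => DIV_liftH D q (y.1, z) hy) (Set.mem_univ z₁) hz₁ _ (Set.mem_univ _) _ hl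
    · unfold DIV_mu analyticOrderNatAt
      rw [DIV_ord_eq l hl]

lemma DIV_inv (hG : ST_GREQ) (hT : ST_GET) (D : ExtData M N t)
    (l : (Fin (D.n + 1) → ℂ) →ₗ[ℂ] ℂ) (q q' : QN M N) (x x' : E) (hx : 0 < x.1.im)
    (h : GR M t q q' x x') : DIV_mu D l q x = DIV_mu D l q' x' := by
  obtain ⟨γ, a, b, hx', hy, -⟩ := hT M N t q q' x x' hx h
  have hx'im : 0 < x'.1.im := ((hG M N t).2.1 q q' x x' hx h).1
  unfold DIV_mu
  congr 1
  set g : ℂ → ℂ := fun z => (z + (a : ℂ) * x.1 + (b : ℂ)) / jj γ x.1 with hgd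
  have hx2 : g x.2 = x'.2 := by rw [hx']; rfl
  have hx1 : mob γ x.1 = x'.1 := by rw [hx']; rfl
  have hj : jj γ x.1 ≠ 0 := by
    intro h0
    have : x'.1 = 0 := by
      rw [← hx1]
      unfold mob
      unfold jj at h0
      rw [h0, div_zero]
    rw [this] at hx'im
    simp at hx'im
  have hga : AnalyticAt ℂ g x.2 := by
    have : Differentiable ℂ g := by
      intro z
      exact (((differentiableAt_id).add (differentiableAt_const _)).add
        (differentiableAt_const _)).div_const _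
    exact this.analyticAt _
  have hgd' : deriv g x.2 ≠ 0 := by
    have : HasDerivAt g (1 / jj γ x.1) x.2 := by
      have := (((hasDerivAt_id x.2).add_const ((a : ℂ) * x.1)).add_const (b : ℂ)).div_const
        (jj γ x.1)
      simpa [hgd] using this
    rw [this.deriv]
    exact one_div_ne_zero hj
  obtain ⟨f, hf⟩ := DIV_liftH D q' x' hx'im
  have := DIV_ord_comp l (φ := fun z => D.fH q' (x'.1, z)) (φ' := fun z => D.fH q (x.1, z))
    (z₀ := x.2) (f := f) (g := g) (by rw [hx2]; exact hf) hga hgd' ?_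
  · rw [this, hx2]
  · refine Filter.Eventually.of_forall fun z => ?_
    have h3 := hy (x.1, z) hx
    have h4 : hGam γ a b (x.1, z) = (x'.1, g z) := by
      rw [← hx1]
      rfl
    rw [h4] at h3
    exact (D.iff q q' (x.1, z) (x'.1, g z) hx hx'im).2 h3

lemma DIV_cusp (D : ExtData M N t) (l : (Fin (D.n + 1) → ℂ) →ₗ[ℂ] ℂ)
    (h2 : ∀ (c : Cusp M N) (k : ZMod N) (p : E), ‖p.1‖ ≤ 1 → ‖p.2‖ ≤ 1 → p.1 * p.2 = 0 →
      (‖p.1‖ = 1 ∨ ‖p.2‖ = 1 ∨ p = 0) → l (D.fD (c, k) p).rep ≠ 0)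
    (c : Cusp M N) (k : ZMod N) (p : E) (hp1 : ‖p.1‖ ≤ 1) (hp2 : ‖p.2‖ ≤ 1)
    (hp : p.1 * p.2 = 0) :
    ∃ V : Set E, IsOpen V ∧ p ∈ V ∧ ∃ G : E → ℂ, DifferentiableOn ℂ G V ∧
      (∀ p' ∈ V, ∀ x₀, D0 k p' x₀ → DIV_mu D l (cout M c) x₀ = analyticOrderNatAt
        (fun s : ℂ => G (p'.1 * exp (-(2 * Real.pi * I * s)), p'.2 * exp (2 * Real.pi * I * s))) 0) ∧
      ((‖p.1‖ = 1 ∨ ‖p.2‖ = 1 ∨ p = 0) → G p ≠ 0) ∧
      (p.2 = 0 → analyticOrderAt (fun X => G (X, 0)) p.1 ≠ ⊤) ∧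
      (p.1 = 0 → analyticOrderAt (fun Y => G (0, Y)) p.2 ≠ ⊤) := by
  have hUDo : IsOpen UD := by
    refine (isOpen_lt (continuous_fst.norm) continuous_const).inter
      ((isOpen_lt (continuous_snd.norm) continuous_const).inter
        (isOpen_lt ((continuous_fst.mul continuous_snd).norm) continuous_const))
  have hpUD : p ∈ UD := by
    refine ⟨lt_of_le_of_lt hp1 (by norm_num), lt_of_le_of_lt hp2 (by norm_num), ?_⟩
    rw [hp]
    norm_num
  obtain ⟨V, hV, hpV, F, hF, h⟩ := D.liftD (c, k) p hpUD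
  refine ⟨V ∩ UD, hV.inter hUDo, ⟨hpV, hpUD⟩, fun y => l (F y), ?_, ?_, ?_, ?_, ?_⟩
  · intro y hy
    exact ((LinearMap.toContinuousLinearMap l).differentiableAt.comp y
      (hF.differentiableAt (hV.mem_nhds hy.1))).differentiableWithinAt
  · rintro p' ⟨hp'V, hp'U⟩ x₀ hx₀
    set γ : ℂ → E := fun s => (p'.1 * exp (-(2 * Real.pi * I * s)),
      p'.2 * exp (2 * Real.pi * I * s)) with hγ
    have hγd : ∀ s, DifferentiableAt ℂ γ s := by
      intro s
      refine DifferentiableAt.prodMk ?_ ?_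
      · fun_prop
      · fun_prop
    have hγ0 : γ 0 = p' := by
      simp [hγ]
    have hl : DIV_Lift (fun s => D.fD (c, k) (γ s)) (fun s => F (γ s)) 0 :=
      DIV_restr hV hF h (c := γ) (Filter.Eventually.of_forall hγd) (by rw [hγ0]; exact hp'V)
    have hxim : 0 < x₀.1.im := hx₀.1
    obtain ⟨f, hf⟩ := DIV_liftH D (cout M c) x₀ hxim
    have hg0 : x₀.2 + (0 : ℂ) = x₀.2 := by simp
    have hga : AnalyticAt ℂ (fun s : ℂ => x₀.2 + s) 0 := by fun_prop
    have hgd : deriv (fun s : ℂ => x₀.2 + s) 0 ≠ 0 := by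
      have : HasDerivAt (fun s : ℂ => x₀.2 + s) 1 0 := by
        simpa using (hasDerivAt_id (0 : ℂ)).const_add x₀.2
      rw [this.deriv]
      exact one_ne_zero
    have hcomp := DIV_ord_comp l (φ := fun z => D.fH (cout M c) (x₀.1, z))
      (φ' := fun s => D.fD (c, k) (γ s)) (z₀ := 0) (f := f) (g := fun s : ℂ => x₀.2 + s)
      (by rw [hg0]; exact hf) hga hgd ?_
    · rw [DIV_ord_eq l hl, hg0] at hcomp
      unfold DIV_mu analyticOrderNatAt
      rw [← hcomp]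
    · have h1 : ∀ᶠ s in 𝓝 (0 : ℂ), γ s ∈ UD :=
        (hγd 0).continuousAt.eventually (hUDo.mem_nhds (by rw [hγ0]; exact hp'U))
      filter_upwards [h1] with s hs
      refine D.compat c k (γ s) hs (x₀.1, x₀.2 + s) ⟨hxim, ?_, ?_⟩
      · have : (γ s).1 * (γ s).2 = p'.1 * p'.2 := by
          have h5 : exp (-(2 * Real.pi * I * s)) * exp (2 * Real.pi * I * s) = 1 := by
            rw [← Complex.exp_add]
            simp
          simp only [hγ]
          calc _ = p'.1 * p'.2 * (exp (-(2 * Real.pi * I * s)) * exp (2 * Real.pi * I * s)) := by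
                ring
            _ = _ := by rw [h5, mul_one]
        rw [this]
        exact hx₀.2.1
      · have : (γ s).1 * (γ s).2 = p'.1 * p'.2 := by
          have h5 : exp (-(2 * Real.pi * I * s)) * exp (2 * Real.pi * I * s) = 1 := by
            rw [← Complex.exp_add]
            simp
          simp only [hγ]
          calc _ = p'.1 * p'.2 * (exp (-(2 * Real.pi * I * s)) * exp (2 * Real.pi * I * s)) := by
                ring
            _ = _ := by rw [h5, mul_one]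
        rw [this]
        have h6 := hx₀.2.2
        simp only [hγ]
        rw [mul_add, Complex.exp_add, h6]
        ring
  · intro hb h0
    obtain ⟨h5, h6⟩ := h p hpV
    apply h2 c k p hp1 hp2 hp hb
    rw [h6]
    exact (DIV_zero_iff l _ h5).2 h0
  · intro hp20
    have hl : DIV_Lift (fun X => D.fD (c, k) (X, 0)) (fun X => F (X, 0)) p.1 := by
      refine DIV_restr hV hF h (c := fun X : ℂ => ((X, 0) : E)) (Filter.Eventually.of_forall
        fun z => differentiableAt_id.prodMk (differentiableAt_const _)) ?_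
      rw [← hp20]
      exact hpV
    refine DIV_dich l (φ := fun X => D.fD (c, k) (X, 0)) (W := Metric.ball 0 (65 / 64))
      (convex_ball (0 : ℂ) (65 / 64 : ℝ)).isPreconnected ?_ (z₁ := 0) (by simp) ?_ _ ?_ _ hl
    · intro z hz
      have hzU : ((z, 0) : E) ∈ UD := by
        refine ⟨by simpa using hz, by simp, by simp⟩
      obtain ⟨V', hV', hzV', F', hF', h'⟩ := D.liftD (c, k) (z, 0) hzU
      exact ⟨_, DIV_restr hV' hF' h' (c := fun X : ℂ => ((X, 0) : E))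
        (Filter.Eventually.of_forall
          fun z => differentiableAt_id.prodMk (differentiableAt_const _)) hzV'⟩
    · exact h2 c k (0, 0) (by simp) (by simp) (by simp) (Or.inr (Or.inr rfl))
    · simpa using lt_of_le_of_lt hp1 (by norm_num)
  · intro hp10
    have hl : DIV_Lift (fun Y => D.fD (c, k) (0, Y)) (fun Y => F (0, Y)) p.2 := by
      refine DIV_restr hV hF h (c := fun Y : ℂ => ((0, Y) : E)) (Filter.Eventually.of_forall
        fun z => (differentiableAt_const _).prodMk differentiableAt_id) ?_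
      rw [← hp10]
      exact hpV
    refine DIV_dich l (φ := fun Y => D.fD (c, k) (0, Y)) (W := Metric.ball 0 (65 / 64))
      (convex_ball (0 : ℂ) (65 / 64 : ℝ)).isPreconnected ?_ (z₁ := 0) (by simp) ?_ _ ?_ _ hl
    · intro z hz
      have hzU : ((0, z) : E) ∈ UD := by
        refine ⟨by simp, by simpa using hz, by simp⟩
      obtain ⟨V', hV', hzV', F', hF', h'⟩ := D.liftD (c, k) (0, z) hzU
      exact ⟨_, DIV_restr hV' hF' h' (c := fun Y : ℂ => ((0, Y) : E))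
        (Filter.Eventually.of_forall
          fun z => (differentiableAt_const _).prodMk differentiableAt_id) hzV'⟩
    · exact h2 c k (0, 0) (by simp) (by simp) (by simp) (Or.inr (Or.inr rfl))
    · simpa using lt_of_le_of_lt hp2 (by norm_num)

lemma DIV_pos (D : ExtData M N t) (l : (Fin (D.n + 1) → ℂ) →ₗ[ℂ] ℂ)
    (h1 : ∀ (q : QN M N) (τ : ℂ), 0 < τ.im → ∃ z : ℂ, l (D.fH q (τ, z)).rep ≠ 0) :
    ∃ (q : QN M N) (x : E), 0 < x.1.im ∧ 0 < DIV_mu D l q x := by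
  by_contra hc
  push Not at hc
  have hI : 0 < (I : ℂ).im := by simp
  set q : QN M N := 1 with hq
  set φ : ℂ → ℙ ℂ (Fin (D.n + 1) → ℂ) := fun z => D.fH q (I, z) with hφ
  have hnz : ∀ z, l (φ z).rep ≠ 0 := by
    intro z
    obtain ⟨f, hf⟩ := DIV_liftH D q (I, z) hI
    have hm := Nat.le_zero.1 (hc q (I, z) hI)
    unfold DIV_mu at hm
    rw [DIV_ord_eq l hf] at hm
    obtain ⟨z₁, hz₁⟩ := h1 q I hI
    have htop := DIV_dich l (φ := φ) isPreconnected_univ
        (fun z _ => DIV_liftH D q (I, z) hI) (Set.mem_univ z₁) hz₁ _ (Set.mem_univ _) _ hf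
    have h0 : analyticOrderAt (fun z => l (f z)) z = 0 := by
      rcases ENat.toNat_eq_zero.1 hm with h | h
      · exact h
      · exact absurd h htop
    have h2 := ((hf.anl l).analyticOrderAt_eq_zero).1 h0
    obtain ⟨h3, h4⟩ := hf.self_of_nhds.2
    intro h5
    apply h2
    have h6 : l (Projectivization.mk ℂ (f z) h3).rep = 0 := by
      rw [← h4]
      exact h5
    exact (DIV_zero_iff l _ h3).1 h6
  set r : Fin (D.n + 1) → ℂ → ℂ := fun j z => (φ z).rep j / l (φ z).rep with hr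
  have hrd : ∀ j, Differentiable ℂ (r j) := by
    intro j z
    obtain ⟨f, hf⟩ := DIV_liftH D q (I, z) hI
    have hlz : l (f z) ≠ 0 := by
      obtain ⟨h3, h4⟩ := hf.self_of_nhds.2
      intro h5
      apply hnz z
      have h6 := (DIV_zero_iff l _ h3).2 h5
      rw [← h4] at h6
      exact h6
    have hda : AnalyticAt ℂ (fun z => f z j / l (f z)) z := (hf.anj j).div (hf.anl l) hlz
    have hev : r j =ᶠ[𝓝 z] (fun z => f z j / l (f z)) := by
      filter_upwards [hf] with w hw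
      obtain ⟨h3, h4⟩ := hw.2
      obtain ⟨a, ha⟩ := Projectivization.exists_smul_eq_mk_rep ℂ (f w) h3
      have h5 : (φ w).rep = (a : ℂ) • f w := by
        have : φ w = Projectivization.mk ℂ (f w) h3 := h4
        rw [this, ← ha, Units.smul_def]
      simp only [hr]
      rw [h5, map_smul]
      simp only [Pi.smul_apply, smul_eq_mul]
      exact mul_div_mul_left _ _ a.ne_zero
    exact hda.differentiableAt.congr_of_eventuallyEq hev
  have hper : ∀ (z : ℂ) (m n : ℤ), φ (z + m * I + n) = φ z := by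
    intro z m n
    refine ((D.iff q q (I, z) (I, z + m * I + n) hI hI).2 ⟨1, m, n, by simp, ?_, ?_⟩).symm
    · simp [mob]
    · simp only [jj]
      simp
      ring
  have hbd : ∀ j, ∃ C : ℝ, ∀ z, ‖r j z‖ ≤ C := by
    intro j
    obtain ⟨C, hC⟩ := (isCompact_closedBall (0 : ℂ) 2).exists_bound_of_continuousOn
      (hrd j).continuous.continuousOn
    refine ⟨C, fun z => ?_⟩
    have hrp : r j (z + (-⌊z.im⌋ : ℤ) * I + (-⌊z.re⌋ : ℤ)) = r j z := by
      simp only [hr]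
      rw [hper]
    rw [← hrp]
    apply hC
    rw [mem_closedBall_zero_iff]
    refine (Complex.norm_le_abs_re_add_abs_im _).trans ?_
    have e1 : (z + ((-⌊z.im⌋ : ℤ) : ℂ) * I + ((-⌊z.re⌋ : ℤ) : ℂ)).re = z.re - ⌊z.re⌋ := by
      simp
      rw [← Int.self_sub_floor]
      ring
    have e2 : (z + ((-⌊z.im⌋ : ℤ) : ℂ) * I + ((-⌊z.re⌋ : ℤ) : ℂ)).im = z.im - ⌊z.im⌋ := by
      simp
      rw [← Int.self_sub_floor]
      ring
    rw [e1, e2]
    have a1 := Int.floor_le z.re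
    have a2 := Int.lt_floor_add_one z.re
    have a3 := Int.floor_le z.im
    have a4 := Int.lt_floor_add_one z.im
    rw [abs_of_nonneg (by linarith), abs_of_nonneg (by linarith)]
    linarith
  have hconst : ∀ z, φ z = φ 0 := by
    intro z
    have hj : ∀ j, r j z = r j 0 := by
      intro j
      obtain ⟨C, hC⟩ := hbd j
      refine (hrd j).apply_eq_apply_of_bounded ?_ z 0
      rw [isBounded_iff_forall_norm_le]
      refine ⟨C, ?_⟩
      rintro _ ⟨w, rfl⟩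
      exact hC w
    rw [← (φ z).mk_rep, ← (φ 0).mk_rep, Projectivization.mk_eq_mk_iff']
    refine ⟨l (φ z).rep / l (φ 0).rep, ?_⟩
    funext j
    have := hj j
    simp only [hr] at this
    rw [div_eq_div_iff (hnz z) (hnz 0)] at this
    simp only [Pi.smul_apply, smul_eq_mul]
    rw [div_mul_eq_mul_div, div_eq_iff (hnz 0)]
    linear_combination -this
  have hall : ∀ z : ℂ, GR M t q q (I, 0) (I, z) := fun z =>
    (D.iff q q (I, 0) (I, z) hI hI).1 (hconst z).symm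
  have : Countable (Matrix (Fin 2) (Fin 2) ℤ) := inferInstanceAs (Countable (Fin 2 → Fin 2 → ℤ))
  have : Countable (SL(2, ℤ)) := Subtype.countable
  have hcount : (Set.univ : Set ℂ).Countable := by
    refine (Set.countable_range (fun p : SL(2, ℤ) × ℤ × ℤ =>
      (0 - sF M t (zet M q) I + (p.2.1 : ℂ) * I + (p.2.2 : ℂ)) / jj p.1 I
        + sF M t (zet M q) I)).mono ?_
    intro z _
    obtain ⟨γ, m, n, -, h2, h3⟩ := hall z
    refine ⟨(γ, m, n), ?_⟩
    have hj : jj γ I ≠ 0 := by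
      intro h0
      have h4 : I = mob γ I := h2
      unfold mob at h4
      unfold jj at h0
      rw [h0, div_zero] at h4
      exact I_ne_zero h4
    simp only at h3 ⊢
    rw [← h3, mul_div_cancel_right₀ _ hj, sub_add_cancel]
  exact not_countable_complex hcount

end

theorem st_DIV (hG : ST_GREQ) (hT : ST_GET) : ST_DIV := by
  intro M N hN t D l h1 h2
  exact ⟨{
    μ := DIV_mu D l
    fib := DIV_fib D l h1
    inv := fun q q' x x' hx h => DIV_inv hG hT D l q q' x x' hx h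
    pos := DIV_pos D l h1
    cusp := fun c k p hp1 hp2 hp => DIV_cusp D l h2 c k p hp1 hp2 hp }⟩

end RicP
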