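import Pool.Agent.Helper88.Ric.Stmts

set_option autoImplicit false

open scoped ContDiff Manifold Topology MatrixGroups LinearAlgebra.Projectivization
open Complex

noncomputable section

namespace RicP

theorem st_NP (h1 : ST_EXT) (h2 : ST_GEN) (h3 : ST_DIV) (h4 : ST_SUM) (h5 : ST_PIG)
    (h6 : ST_MAXP) : ST_NP := by
  intro M N hN
  by_contra hc
  push Not at hc
  have hS : ∀ t : ℝ, Nonempty (SumData M N t) := by
    intro t
    obtain ⟨D⟩ := h1 M N hN t (hc t)
    obtain ⟨l, hl1, hl2⟩ := h2 M N hN t D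
    obtain ⟨V⟩ := h3 M N hN t D l hl1 hl2
    exact h4 M N hN t V
  obtain ⟨δ, D, hδ, hD, hE, hb⟩ := h5 M N hN hS
  exact h6 M N hN δ D hδ hD hE hb

theorem st_DGOOD (h1 : ST_DCURV) (h2 : ST_CERTD) : ST_DGOOD := by
  intro p hp
  obtain ⟨hp1, hp2, hp3⟩ := hp
  have h : GoodAt potD p := by
    refine h1 p (lt_trans hp3 (by norm_num)) (h2 _ _ (norm_nonneg _) (norm_nonneg _) hp1 hp2 ?_)
    rw [← norm_mul]
    exact hp3
  exact h p rfl

theorem st_CERTH (h1 : ST_HTEN) (h2 : ST_HNUM) : ST_CERTH := by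
  intro L T hL hL2
  refine ⟨(0, Real.sqrt (L / 56)), (L, T), ?_, ?_⟩
  · have h3 : 0 < Real.sqrt (L / 56) := Real.sqrt_pos.2 (by positivity)
    have h4 : 0 < Real.sqrt (L / 56) * L := by positivity
    simp only [zero_mul, zero_sub]
    exact neg_ne_zero.2 h4.ne'
  · rw [h1 L T hL]
    exact h2 L _ hL hL2

theorem st_GOOD (hREQ : ST_REQ) (hRCLO : ST_RCLO) (hRINJ : ST_RINJ) (hRCOV : ST_RCOV)
    (hRLINK : ST_RLINK) (hTOP : ST_TOP) (hRET : ST_RET) (hHGOOD : ST_HGOOD) (hDGOOD : ST_DGOOD)
    (hSMH : ST_SMH) (hSMD : ST_SMD) : ST_GOOD := by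
  obtain ⟨ε, hε, hε1, hH⟩ := hHGOOD
  refine ⟨ε, hε, fun M N hN hNε t => ?_⟩
  obtain ⟨t1, t2, t3, t4, t5, t6, t7, t8, t9, t10⟩ := hTOP M N hN
  have hN1 : 1 ≤ N := le_trans (by norm_num) hN.2
  have hU : ∀ i : Idx M N, (ricData M N ε t).U i = Uof i := by
    rintro (i | i) <;> rfl
  exact {
    fin := t1
    nonempty := t2
    isOpen := by
      rintro (i | i)
      · exact t3
      · exact t4
    conn := by
      rintro (i | i)
      · exact t5
      · exact t6
    smooth := by
      rintro (i | i)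
      · refine (hSMH N ε hN1 hε).mono ?_
        rintro x ⟨hx, -⟩
        exact lt_trans (by norm_num) hx
      · refine hSMD.mono ?_
        rintro x ⟨-, -, hx⟩
        exact lt_trans hx (by norm_num)
    good := by
      rintro (i | i)
      · exact hH N hN1
      · exact hDGOOD
    refl := by
      intro i x hx
      exact (hREQ M N hN t).1 i x (hU i ▸ hx)
    symm := by
      intro i j x hx y hy h
      exact (hREQ M N hN t).2.1 i j x (hU i ▸ hx) y (hU j ▸ hy) h
    trans := by
      intro i j k x hx y hy z hz h h'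
      exact (hREQ M N hN t).2.2 i j k x (hU i ▸ hx) y (hU j ▸ hy) z (hU k ▸ hz) h h'
    etale := by
      intro (i : Idx M N) (j : Idx M N) x hx y hy h
      rw [hU] at hx hy
      rw [hU, hU]
      exact hRET M N hN ε t hε hε1 hNε i j x hx y hy h
    inj := by
      intro (i : Idx M N) x hx
      rw [hU] at hx ⊢
      exact hRINJ M N hN t i x hx
    closed := by
      intro (i : Idx M N) (j : Idx M N) x hx y hy h
      rw [hU] at hx hy
      rw [hU, hU] at h
      exact hRCLO M N hN t i j x hx y hy h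
    compact := by
      rintro (i | i)
      · exact t7
      · exact t8
    sub := by
      rintro (i | i)
      · exact t9
      · exact t10
    cover := by
      intro (i : Idx M N) x hx
      rw [hU] at hx
      rcases hRCOV M N hN t i x hx with ⟨q, y, hy, h⟩ | ⟨ck, y, hy, h⟩
      · exact ⟨Sum.inl q, y, hy, h⟩
      · exact ⟨Sum.inr ck, y, hy, h⟩
    link := by
      intro (i : Idx M N) (j : Idx M N)
      have h0 := hRLINK M N hN t i j
      have hm : ∀ a b : Idx M N, (∃ x ∈ Uof a, ∃ y ∈ Uof b, ricR M t a x b y) →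
          ∃ x ∈ (ricData M N ε t).U a, ∃ y ∈ (ricData M N ε t).U b,
            (ricData M N ε t).R a x b y := by
        rintro a b ⟨x, hx, y, hy, h⟩
        exact ⟨x, by rw [hU]; exact hx, y, by rw [hU]; exact hy, h⟩
      exact Relation.ReflTransGen.mono hm _ _ h0 }

end RicP
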